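import Pool.Agent.H566R4.Final

set_option autoImplicit false

/-!
The plane case `m = 2`, `d ≤ q - 2`, of the conjecture of Boguslavsky, for all `r`.
-/

namespace Pool.Agent.Results.MP_0b0414_ag.PlaneCase

/-- The `k`-rational points of the projective plane at which all the forms `G i` vanish. -/
def zeros {k : Type} [Field k] {r : ℕ} (G : Fin r → MvPolynomial (Fin 3) k) :
    Set (Projectivization k (Fin 3 → k)) :=
  {x | ∀ i, MvPolynomial.eval x.rep (G i) = 0}

/-- Let `k` be a field with `q` elements, `1 ≤ d ≤ q - 2` and `1 ≤ r ≤ (d + 2).choose 2`. Let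
`κ ≤ d` be such that `(κ + 1).choose 2 < r ≤ (κ + 2).choose 2`. The maximal number of rational points
of the zero set in the projective plane of `r` linearly independent forms of degree `d` over `k` is
`(d - κ) * q + 1 + (κ + 2).choose 2 - r` if `κ < d`, and `(d + 2).choose 2 - r` if `κ = d`. It is
attained by forms whose zero set over the algebraic closure of `k` is the union of finitely many
lines `∑ l j * x j = 0`, `l ∈ L`, and finitely many points `p ∈ Q`, all defined over `k`. -/
theorem result (k : Type) [Field k] [Fintype k] (d r : ℕ) (hd : 1 ≤ d)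
    (hq : d + 2 ≤ Fintype.card k) (hr : 1 ≤ r) (hr2 : r ≤ (d + 2).choose 2) :
    ∃ κ N : ℕ, κ ≤ d ∧ (κ + 1).choose 2 < r ∧ r ≤ (κ + 2).choose 2 ∧
      (κ < d → N = (d - κ) * Fintype.card k + 1 + ((κ + 2).choose 2 - r)) ∧
      (κ = d → N = (d + 2).choose 2 - r) ∧
      (∀ G : Fin r → MvPolynomial (Fin 3) k, (∀ i, (G i).IsHomogeneous d) →
        LinearIndependent k G → (zeros G).ncard ≤ N) ∧
      ∃ F : Fin r → MvPolynomial (Fin 3) k, (∀ i, (F i).IsHomogeneous d) ∧
        LinearIndependent k F ∧ (zeros F).ncard = N ∧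
        ∃ L Q : Finset (Fin 3 → k), (∀ l ∈ L, l ≠ 0) ∧ (∀ p ∈ Q, p ≠ 0) ∧
          ∀ x : Fin 3 → AlgebraicClosure k, x ≠ 0 →
            ((∀ i, MvPolynomial.aeval x (F i) = 0) ↔
              ((∃ l ∈ L, ∑ j, algebraMap k (AlgebraicClosure k) (l j) * x j = 0) ∨
                ∃ p ∈ Q, ∃ t : AlgebraicClosure k, ∀ j, x j = t * algebraMap k _ (p j))) :=
  Pool.Agent.H566R4.final k d r hd hq hr hr2

end Pool.Agent.Results.MP_0b0414_ag.PlaneCase
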